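import Pool.Agent.U503.EA.Stm

/-!
# Project EA, package BE: the plane with the directions e0, e1, 2 e0 - e1
-/

set_option autoImplicit false

namespace Pool.Agent.U99.EA

open Finset Function Pool.Agent.U503.VS Pool.Agent.U503.EA

/-- the coordinates `(v 0 + v 1, v 0)` -/
def eqv (p : ℕ) : (Fin 2 → ZMod p) ≃ ZMod p × ZMod p where
  toFun v := (v 0 + v 1, v 0)
  invFun q := ![q.2, q.1 - q.2]
  left_inv v := by
    funext i
    fin_cases i <;> simp
  right_inv q := by
    ext <;> simp

/-- the three translations of the fibres -/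
def gg (p : ℕ) (i : Fin 3) (s : ZMod p) : ZMod p :=
  ![(if s = 0 then 1 else 0) + (if s = 1 then 2 else 0), 1 - (if s = 0 then 1 else 0),
    2 - (if s = 1 then 2 else 0)] i

/-- the three maps -/
def kap (p : ℕ) (i : Fin 3) (v : Fin 2 → ZMod p) : Fin 2 → ZMod p :=
  (eqv p).symm ((eqv p v).1 + 1, (eqv p v).2 + gg p i (eqv p v).1)

theorem trans_one {p : ℕ} [NeZero p] : Trans (fun v : ZMod p => v + 1) := by
  intro v w
  have key : ∀ m : ℕ, (fun v : ZMod p => v + 1)^[m] v = v + m := by
    intro m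
    induction m with
    | zero => simp
    | succ m ih => rw [iterate_succ_apply', ih]; push_cast; ring
  refine ⟨(w - v).val, ?_⟩
  rw [key, ZMod.natCast_zmod_val]
  ring

theorem cast_ne {p : ℕ} (hp : p.Prime) (hp5 : 5 ≤ p) (k : ℕ) (h1 : 1 ≤ k) (h4 : k ≤ 4) :
    (k : ZMod p) ≠ 0 := by
  intro h
  rw [ZMod.natCast_eq_zero_iff] at h
  have := Nat.le_of_dvd h1 h
  omega

theorem gg_sum {p : ℕ} [Fact p.Prime] (hp5 : 5 ≤ p) (i : Fin 3) :
    IsUnit (∑ s : ZMod p, gg p i s) := by
  have hp : p.Prime := Fact.out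
  have e : (∑ _s : ZMod p, (1 : ZMod p)) = 0 := by
    rw [sum_const, card_univ, ZMod.card, nsmul_eq_mul, mul_one, CharP.cast_eq_zero]
  have e2 : (∑ _s : ZMod p, (2 : ZMod p)) = 0 := by
    rw [sum_const, card_univ, ZMod.card, nsmul_eq_mul, CharP.cast_eq_zero, zero_mul]
  rw [isUnit_iff_ne_zero]
  unfold gg
  fin_cases i
  · have h3 := cast_ne hp hp5 3 (by norm_num) (by norm_num)
    have : (∑ s : ZMod p, ((if s = 0 then (1 : ZMod p) else 0) + (if s = 1 then 2 else 0))) =
        ((3 : ℕ) : ZMod p) := by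
      rw [sum_add_distrib, sum_ite_eq' univ (0 : ZMod p), sum_ite_eq' univ (1 : ZMod p)]
      simp only [mem_univ, if_true]
      norm_num
    simpa using (this ▸ h3)
  · have h3 := cast_ne hp hp5 1 (by norm_num) (by norm_num)
    have : (∑ s : ZMod p, ((1 : ZMod p) - (if s = 0 then (1 : ZMod p) else 0))) =
        -((1 : ℕ) : ZMod p) := by
      rw [sum_sub_distrib, sum_ite_eq' univ (0 : ZMod p), e]
      simp
    have h4 := neg_ne_zero.2 h3
    rw [← this] at h4
    simpa using h4
  · have h3 := cast_ne hp hp5 2 (by norm_num) (by norm_num)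
    have : (∑ s : ZMod p, ((2 : ZMod p) - (if s = 1 then (2 : ZMod p) else 0))) =
        -((2 : ℕ) : ZMod p) := by
      rw [sum_sub_distrib, sum_ite_eq' univ (1 : ZMod p), e2]
      simp
    have h4 := neg_ne_zero.2 h3
    rw [← this] at h4
    simpa using h4

theorem kap_trans {p : ℕ} [Fact p.Prime] (hp5 : 5 ≤ p) (i : Fin 3) : Trans (kap p i) := by
  refine (skew (B := ZMod p) (n := p) trans_one (gg p i) (gg_sum hp5 i)).conj (eqv p) ?_
  intro v
  unfold kap
  rw [Equiv.apply_symm_apply]

/-- the target of an arc -/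
def tg (p : ℕ) (v : Fin 2 → ZMod p) (c : ZMod p) : Fin 2 → ZMod p := ![v 0 + c, v 1 + 1 - c]

theorem kap_eq (p : ℕ) (i : Fin 3) (v : Fin 2 → ZMod p) :
    kap p i v = tg p v (gg p i (v 0 + v 1)) := by
  unfold kap tg eqv
  simp only [Equiv.coe_fn_mk, Equiv.coe_fn_symm_mk]
  funext j
  fin_cases j
  · rfl
  · simp
    ring

theorem t_BE : S_BE := by
  intro p hp hp5
  haveI : Fact p.Prime := ⟨hp⟩
  refine ⟨[kap p 0, kap p 1, kap p 2], rfl, ?_, ?_⟩
  · intro κ hκ
    simp only [List.mem_cons, List.not_mem_nil, or_false] at hκ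
    rcases hκ with rfl | rfl | rfl
    · exact kap_trans hp5 0
    · exact kap_trans hp5 1
    · exact kap_trans hp5 2
  · intro v
    have h3 : (univ : Finset (Option (Fin 2))).val =
        (([none, some 0, some 1] : List (Option (Fin 2))) : Multiset (Option (Fin 2))) := rfl
    have hr : (univ : Finset (Option (Fin (0 + 2)))).val.map (fun i => v + famE p 0 i) =
        (([tg p v 2, tg p v 1, tg p v 0] : List (Fin 2 → ZMod p)) :
          Multiset (Fin 2 → ZMod p)) := by
      have e1 : v + famE p 0 none = tg p v 2 := by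
        unfold famE tg
        funext j
        fin_cases j
        · simp
        · simp
          ring
      have e2 : v + famE p 0 (some 0) = tg p v 1 := by
        unfold famE tg
        funext j
        fin_cases j <;> simp
      have e3 : v + famE p 0 (some 1) = tg p v 0 := by
        unfold famE tg
        funext j
        fin_cases j <;> simp
      refine (congrArg (Multiset.map (fun i => v + famE p 0 i)) h3).trans ?_
      rw [Multiset.map_coe, List.map_cons, List.map_cons, List.map_cons, List.map_nil, e1, e2, e3]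
    rw [hr]
    simp only [List.map_cons, List.map_nil, kap_eq]
    have h10 : (1 : ZMod p) ≠ 0 := one_ne_zero
    by_cases h0 : v 0 + v 1 = 0
    · have g0 : gg p 0 (v 0 + v 1) = 1 := by simp [gg, h0]
      have g1 : gg p 1 (v 0 + v 1) = 0 := by simp [gg, h0]
      have g2 : gg p 2 (v 0 + v 1) = 2 := by simp [gg, h0]
      rw [g0, g1, g2, Multiset.coe_eq_coe]
      exact List.perm_append_comm (l₁ := [tg p v 1, tg p v 0]) (l₂ := [tg p v 2])
    · by_cases h1 : v 0 + v 1 = 1
      · have g0 : gg p 0 (v 0 + v 1) = 2 := by simp [gg, h1]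
        have g1 : gg p 1 (v 0 + v 1) = 1 := by simp [gg, h1]
        have g2 : gg p 2 (v 0 + v 1) = 0 := by simp [gg, h1]
        rw [g0, g1, g2]
      · have g0 : gg p 0 (v 0 + v 1) = 0 := by simp [gg, h0, h1]
        have g1 : gg p 1 (v 0 + v 1) = 1 := by simp [gg, h0]
        have g2 : gg p 2 (v 0 + v 1) = 2 := by simp [gg, h1]
        rw [g0, g1, g2, Multiset.coe_eq_coe]
        exact List.reverse_perm [tg p v 2, tg p v 1, tg p v 0]

end Pool.Agent.U99.EA
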